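import Pool.Agent.W443.J6.Stms

set_option autoImplicit false

/-! Weighted substitution in the twisted bracket. -/

open MvPolynomial Pool.Agent.H938R2.JC Pool.Agent.W443.J5 Pool.Agent.W443.J6

namespace Pool.Agent.W372.J6

universe u

variable {k : Type u} [Field k]

/-- the substitution `z = t ^ W0`, `Y = t ^ W1 Y` -/
noncomputable def TT (W0 W1 : ℕ) : MvPolynomial (Fin 2) k →ₐ[k] MvPolynomial (Fin 2) k :=
  aeval ![X 0 ^ W0, X 0 ^ W1 * X 1]

theorem TT_X0 (W0 W1 : ℕ) : TT W0 W1 (X 0 : MvPolynomial (Fin 2) k) = X 0 ^ W0 := by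
  simp [TT]

theorem TT_pd1 (W0 W1 : ℕ) (f : MvPolynomial (Fin 2) k) :
    pderiv 1 (TT W0 W1 f) = TT W0 W1 (pderiv 1 f) * X 0 ^ W1 := by
  unfold TT
  rw [H922R2.deriv_aeval (pderiv 1)]
  simp only [Fin.sum_univ_two, Matrix.cons_val_zero, Matrix.cons_val_one, Derivation.leibniz_pow,
    Derivation.leibniz, smul_eq_mul]
  rw [pderiv_X_of_ne (by decide : (0 : Fin 2) ≠ 1), pderiv_X_self]
  simp

theorem TT_J (W0 W1 : ℕ) (hW0 : 1 ≤ W0) (f g : MvPolynomial (Fin 2) k) :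
    X 0 * J (TT W0 W1 f) (TT W0 W1 g) = C (W0 : k) * X 0 ^ W1 * TT W0 W1 (X 0 * J f g) := by
  rw [map_mul, TT_X0]
  unfold TT
  rw [J_aeval]
  have : J (![X 0 ^ W0, X 0 ^ W1 * X 1] 0) (![X 0 ^ W0, X 0 ^ W1 * X 1] 1) =
      (C (W0 : k) * X 0 ^ (W0 - 1) * X 0 ^ W1 : MvPolynomial (Fin 2) k) := by
    unfold J
    simp only [Matrix.cons_val_zero, Matrix.cons_val_one, Derivation.leibniz_pow,
      Derivation.leibniz, smul_eq_mul]
    rw [pderiv_X_of_ne (by decide : (0 : Fin 2) ≠ 1), pderiv_X_self, pderiv_X_of_ne (by decide : (1 : Fin 2) ≠ 0),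
      pderiv_X_self]
    simp
  rw [this]
  obtain ⟨w, rfl⟩ : ∃ w, W0 = w + 1 := ⟨W0 - 1, by omega⟩
  rw [Nat.add_sub_cancel, pow_succ]
  ring

theorem BB_TT (W0 W1 : ℕ) (hW0 : 1 ≤ W0) (D E : ℤ) (f g : MvPolynomial (Fin 2) k) :
    BB (W0 * D) (W0 * E) (TT W0 W1 f) (TT W0 W1 g) =
      C (W0 : k) * X 0 ^ W1 * TT W0 W1 (BB D E f g) := by
  unfold BB
  have hC : ∀ x : k, TT W0 W1 (C x) = C x := fun x => by
    rw [← algebraMap_eq, AlgHom.commutes]
  rw [TT_J W0 W1 hW0, TT_pd1, TT_pd1]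
  simp only [map_add, map_sub, map_mul, hC]
  push_cast
  simp only [map_mul, map_natCast]
  ring

theorem BB_pow (d d' : ℕ) (D E : ℤ) (P Q : MvPolynomial (Fin 2) k) :
    BB D E (X 0 ^ d * P) (X 0 ^ d' * Q) = X 0 ^ (d + d') * BB (D - d) (E - d') P Q := by
  have h1 : ∀ (n : ℕ) (R : MvPolynomial (Fin 2) k), pderiv 1 (X 0 ^ n * R) = X 0 ^ n * pderiv 1 R := by
    intro n R
    rw [Derivation.leibniz, Derivation.leibniz_pow, pderiv_X_of_ne (by decide : (0 : Fin 2) ≠ 1)]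
    simp
  have h0 : ∀ (n : ℕ) (R : MvPolynomial (Fin 2) k), X 0 * pderiv 0 (X 0 ^ n * R) =
      X 0 ^ n * (C (n : k) * R + X 0 * pderiv 0 R) := by
    intro n R
    rw [Derivation.leibniz, Derivation.leibniz_pow, pderiv_X_self]
    rcases n with _ | n
    · simp
    · simp only [Nat.add_sub_cancel, smul_eq_mul, nsmul_eq_mul]
      push_cast
      simp only [map_add, map_natCast, map_one]
      ring
  have h2 : X 0 * J (X 0 ^ d * P) (X 0 ^ d' * Q) =
      (X 0 * pderiv 0 (X 0 ^ d * P)) * pderiv 1 (X 0 ^ d' * Q) -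
      pderiv 1 (X 0 ^ d * P) * (X 0 * pderiv 0 (X 0 ^ d' * Q)) := by
    unfold J
    ring
  unfold BB
  rw [h2, h0, h0, h1, h1, J]
  push_cast
  simp only [map_sub, map_natCast, pow_add]
  ring

/-- the quotient by `t ^ d` -/
noncomputable def til (W0 W1 d : ℕ) (f : MvPolynomial (Fin 2) k) : MvPolynomial (Fin 2) k :=
  ∑ m ∈ f.support, C (coeff m f) * X 0 ^ (W0 * m 0 + W1 * m 1 - d) * X 1 ^ m 1

theorem TT_eq {W0 W1 d : ℕ} {f : MvPolynomial (Fin 2) k}
    (h : ∀ m, coeff m f ≠ 0 → d ≤ W0 * m 0 + W1 * m 1) :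
    TT W0 W1 f = X 0 ^ d * til W0 W1 d f := by
  conv_lhs => rw [f.as_sum]
  rw [map_sum, til, Finset.mul_sum]
  refine Finset.sum_congr rfl fun m hm => ?_
  have h1 := h m (mem_support_iff.1 hm)
  unfold TT
  rw [aeval_monomial, Finsupp.prod_fintype _ _ (by simp), Fin.prod_univ_two]
  simp only [Matrix.cons_val_zero, Matrix.cons_val_one, algebraMap_eq]
  have h2 : (X 0 : MvPolynomial (Fin 2) k) ^ (W0 * m 0 + W1 * m 1) =
      X 0 ^ d * X 0 ^ (W0 * m 0 + W1 * m 1 - d) := by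
    rw [← pow_add, Nat.add_sub_cancel' h1]
  rw [mul_pow, ← pow_mul, ← pow_mul]
  calc (C (coeff m f) * (X 0 ^ (W0 * m 0) * (X 0 ^ (W1 * m 1) * X 1 ^ m 1)) : MvPolynomial (Fin 2) k)
      = C (coeff m f) * X 0 ^ (W0 * m 0 + W1 * m 1) * X 1 ^ m 1 := by rw [pow_add]; ring
    _ = _ := by rw [h2]; ring

theorem dh_eq_sum (W0 W1 d : ℕ) (f : MvPolynomial (Fin 2) k) :
    dh W0 W1 d f = ∑ m ∈ f.support, if W0 * m 0 + W1 * m 1 = d then
      Polynomial.C (coeff m f) * Polynomial.X ^ m 1 else 0 := by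
  unfold dh part
  rw [map_sum, Finset.sum_filter]
  refine Finset.sum_congr rfl fun m _ => ?_
  have h1 : ((W0 : ℤ) * (m 0 : ℤ) + (W1 : ℤ) * (m 1 : ℤ) = (d : ℤ)) ↔ W0 * m 0 + W1 * m 1 = d := by
    norm_cast
  simp only [h1]
  split_ifs
  · rw [aeval_monomial, Finsupp.prod_fintype _ _ (by simp), Fin.prod_univ_two]
    simp
  · rfl

theorem ev0_til {W0 W1 d : ℕ} {f : MvPolynomial (Fin 2) k}
    (h : ∀ m, coeff m f ≠ 0 → d ≤ W0 * m 0 + W1 * m 1) :
    ev0 (til W0 W1 d f) = dh W0 W1 d f := by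
  rw [dh_eq_sum, ev0, til, map_sum]
  refine Finset.sum_congr rfl fun m hm => ?_
  have h1 := h m (mem_support_iff.1 hm)
  rw [map_mul, map_mul, map_pow, map_pow, aeval_X, aeval_X, ← algebraMap_eq, AlgHom.commutes]
  simp only [Matrix.cons_val_zero, Matrix.cons_val_one, Polynomial.algebraMap_eq]
  split_ifs with h2
  · rw [h2, Nat.sub_self, pow_zero, mul_one]
  · rw [zero_pow (by omega), mul_zero, zero_mul]

theorem ev0_pd1 (f : MvPolynomial (Fin 2) k) : ev0 (pderiv 1 f) = Polynomial.derivative (ev0 f) := by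
  have h1 := H922R2.deriv_aeval (k := k) (Polynomial.derivative' : Derivation k (Polynomial k) (Polynomial k))
    ![0, Polynomial.X] f
  rw [Fin.sum_univ_two] at h1
  simp only [Polynomial.derivative'_apply, Matrix.cons_val_zero, Matrix.cons_val_one,
    Polynomial.derivative_X, Polynomial.derivative_zero, mul_one, mul_zero, zero_add] at h1
  exact h1.symm

theorem ev0_BB (D E : ℤ) (P Q : MvPolynomial (Fin 2) k) :
    ev0 (BB D E P Q) = Polynomial.C (E : k) * ev0 Q * Polynomial.derivative (ev0 P) -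
      Polynomial.C (D : k) * ev0 P * Polynomial.derivative (ev0 Q) := by
  rw [← ev0_pd1, ← ev0_pd1]
  have hC : ∀ x : k, aeval ![0, Polynomial.X] (C x : MvPolynomial (Fin 2) k) = Polynomial.C x := fun x => by
    rw [← algebraMap_eq, AlgHom.commutes, Polynomial.algebraMap_eq]
  unfold BB ev0
  simp only [map_add, map_sub, map_mul, aeval_X, hC, Matrix.cons_val_zero, zero_mul]
  ring

theorem X_pow_inj {c : k} (hc : c ≠ 0) {n d : ℕ} {P : MvPolynomial (Fin 2) k}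
    (h : C c * X 0 ^ n = X 0 ^ d * P) : d ≤ n := by
  by_contra hlt
  have h1 : coeff (e n 0) (C c * X 0 ^ n : MvPolynomial (Fin 2) k) = c := by
    rw [coeff_C_mul, coeff_X_pow, if_pos, mul_one]
    rw [ext_iff']
    simp
  have h2 : coeff (e n 0) (X 0 ^ d * P : MvPolynomial (Fin 2) k) = 0 := by
    rw [X_pow_eq_monomial, coeff_monomial_mul', if_neg]
    intro hle
    have := hle 0
    simp at this
    omega
  rw [h, h2] at h1
  exact hc h1.symm

/-- the key lemma -/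
theorem key [CharZero k] {W0 W1 : ℕ} (hW0 : 1 ≤ W0) {D E : ℤ} {μ : ℕ} {c : k} (hc : c ≠ 0)
    {F G : MvPolynomial (Fin 2) k} (hB : BB D E F G = C c * X 0 ^ μ) {d d' : ℕ}
    (hF : ∀ m, coeff m F ≠ 0 → d ≤ W0 * m 0 + W1 * m 1)
    (hG : ∀ m, coeff m G ≠ 0 → d' ≤ W0 * m 0 + W1 * m 1) :
    d + d' ≤ W1 + W0 * μ ∧ (d + d' < W1 + W0 * μ →
      Polynomial.C ((W0 * E - d' : ℤ) : k) * dh W0 W1 d' G * Polynomial.derivative (dh W0 W1 d F) =
      Polynomial.C ((W0 * D - d : ℤ) : k) * dh W0 W1 d F * Polynomial.derivative (dh W0 W1 d' G)) := by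
  have h1 := BB_TT W0 W1 hW0 D E F G
  rw [TT_eq hF, TT_eq hG, BB_pow, hB] at h1
  have h2 : TT W0 W1 (C c * X 0 ^ μ : MvPolynomial (Fin 2) k) = C c * X 0 ^ (W0 * μ) := by
    rw [map_mul, map_pow, TT_X0, ← algebraMap_eq, AlgHom.commutes, ← pow_mul]
  rw [h2] at h1
  have h3 : C (W0 * c : k) * X 0 ^ (W1 + W0 * μ) = X 0 ^ (d + d') *
      BB (W0 * D - d) (W0 * E - d') (til W0 W1 d F) (til W0 W1 d' G) := by
    rw [h1, pow_add, map_mul]
    ring
  have hW0' : (W0 : k) ≠ 0 := by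
    have : W0 ≠ 0 := by omega
    exact_mod_cast this
  have hle := X_pow_inj (mul_ne_zero hW0' hc) h3
  refine ⟨hle, fun hlt => ?_⟩
  obtain ⟨n, hn⟩ : ∃ n, W1 + W0 * μ = (d + d') + (n + 1) := ⟨W1 + W0 * μ - (d + d') - 1, by omega⟩
  rw [hn, pow_add] at h3
  have h4 : C (W0 * c : k) * X 0 ^ (n + 1) =
      BB (W0 * D - d) (W0 * E - d') (til W0 W1 d F) (til W0 W1 d' G) := by
    have hX : (X 0 : MvPolynomial (Fin 2) k) ^ (d + d') ≠ 0 := pow_ne_zero _ (X_ne_zero 0)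
    apply mul_left_cancel₀ hX
    rw [← h3]
    ring
  have h5 := congrArg ev0 h4
  rw [ev0_BB, ev0_til hF, ev0_til hG] at h5
  have h6 : ev0 (C (W0 * c : k) * X 0 ^ (n + 1) : MvPolynomial (Fin 2) k) = 0 := by
    unfold ev0
    rw [map_mul, map_pow, aeval_X]
    simp
  rw [h6] at h5
  exact (sub_eq_zero.1 h5.symm)

/-! ### coefficients of `dh` -/

theorem dh_coeff {W0 W1 d : ℕ} (hW0 : 1 ≤ W0) {f : MvPolynomial (Fin 2) k} (m : Fin 2 →₀ ℕ)
    (hm : W0 * m 0 + W1 * m 1 = d) : (dh W0 W1 d f).coeff (m 1) = coeff m f := by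
  rw [dh_eq_sum, Polynomial.finsetSum_coeff]
  rw [Finset.sum_eq_single m]
  · rw [if_pos hm, Polynomial.coeff_C_mul, Polynomial.coeff_X_pow, if_pos rfl, mul_one]
  · intro m' _ hne
    split_ifs with h
    · rw [Polynomial.coeff_C_mul, Polynomial.coeff_X_pow, if_neg, mul_zero]
      intro h1
      apply hne
      rw [ext_iff']
      refine ⟨?_, h1.symm⟩
      rw [← h1] at h
      have : W0 * m' 0 = W0 * m 0 := by omega
      exact Nat.eq_of_mul_eq_mul_left (by omega) this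
    · rw [Polynomial.coeff_zero]
  · intro hns
    rw [if_pos hm, notMem_support_iff.1 hns]
    simp

theorem dh_coeff_ne {W0 W1 d : ℕ} {f : MvPolynomial (Fin 2) k} {j : ℕ}
    (h : (dh W0 W1 d f).coeff j ≠ 0) :
    ∃ m, coeff m f ≠ 0 ∧ m 1 = j ∧ W0 * m 0 + W1 * m 1 = d := by
  rw [dh_eq_sum, Polynomial.finsetSum_coeff] at h
  obtain ⟨m, hm, hne⟩ := Finset.exists_ne_zero_of_sum_ne_zero h
  refine ⟨m, mem_support_iff.1 hm, ?_, ?_⟩
  · by_contra h1
    apply hne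
    split_ifs
    · rw [Polynomial.coeff_C_mul, Polynomial.coeff_X_pow, if_neg (fun h2 => h1 h2.symm), mul_zero]
    · rw [Polynomial.coeff_zero]
  · by_contra h1
    apply hne
    rw [if_neg h1, Polynomial.coeff_zero]

theorem ev0_coeff (h : MvPolynomial (Fin 2) k) (j : ℕ) : (ev0 h).coeff j = coeff (e 0 j) h := by
  induction h using MvPolynomial.induction_on' with
  | monomial u a =>
    rw [ev0, aeval_monomial, Finsupp.prod_fintype _ _ (by simp), Fin.prod_univ_two]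
    simp only [Matrix.cons_val_zero, Matrix.cons_val_one]
    rw [coeff_monomial, Polynomial.algebraMap_eq]
    by_cases h1 : u 0 = 0
    · rw [h1, pow_zero, one_mul, Polynomial.coeff_C_mul, Polynomial.coeff_X_pow]
      by_cases h0 : j = u 1
      · rw [if_pos h0, if_pos (ext_iff'.2 ⟨by simp [h1], by simp [h0]⟩), mul_one]
      · rw [if_neg h0, if_neg, mul_zero]
        intro h; apply h0; rw [h]; simp
    · rw [zero_pow h1, zero_mul, mul_zero, Polynomial.coeff_zero, if_neg]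
      intro h; apply h1; rw [h]; simp
  | add p q hp hq =>
    have : ev0 (p + q) = ev0 p + ev0 q := by unfold ev0; rw [map_add]
    rw [this, Polynomial.coeff_add, hp, hq, coeff_add]

end Pool.Agent.W372.J6
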