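import Pool.Agent.W372.J6.Uni
import Pool.Agent.W372.J6.Sub

set_option autoImplicit false

/-! Project J6, part LB: the first slope in the local problem. -/

open MvPolynomial Pool.Agent.H938R2.JC Pool.Agent.W443.J5 Pool.Agent.W443.J6

namespace Pool.Agent.W372.J6

universe u

variable {k : Type u} [Field k]

/-- the pairs `(i, δ)` -/
def Pr (F : MvPolynomial (Fin 2) k) (a : ℕ) : Finset (ℕ × ℕ) :=
  (F.support.filter fun m => m 1 < 2 * a).image fun m => (m 0, 2 * a - m 1)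

theorem mem_Pr {F : MvPolynomial (Fin 2) k} {a : ℕ} {p : ℕ × ℕ} :
    p ∈ Pr F a ↔ ∃ m, coeff m F ≠ 0 ∧ m 1 < 2 * a ∧ m 0 = p.1 ∧ 2 * a - m 1 = p.2 := by
  unfold Pr
  simp only [Finset.mem_image, Finset.mem_filter, mem_support_iff]
  constructor
  · rintro ⟨m, ⟨h1, h2⟩, rfl⟩
    exact ⟨m, h1, h2, rfl, rfl⟩
  · rintro ⟨m, h1, h2, h3, h4⟩
    exact ⟨m, ⟨h1, h2⟩, by rw [h3, h4]⟩

/-- admissible weights from a bound for the slopes -/
theorem adm {F : MvPolynomial (Fin 2) k} {a W0 W1 : ℕ}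
    (h : ∀ p ∈ Pr F a, W1 * p.2 ≤ W0 * p.1) :
    ∀ m, coeff m F ≠ 0 → 2 * a * W1 ≤ W0 * m 0 + W1 * m 1 := by
  intro m hm
  rcases le_or_gt (2 * a) (m 1) with h1 | h1
  · have : W1 * (2 * a) ≤ W1 * m 1 := Nat.mul_le_mul_left _ h1
    nlinarith
  · have h2 := h (m 0, 2 * a - m 1) (mem_Pr.2 ⟨m, hm, h1, rfl, rfl⟩)
    simp only at h2
    obtain ⟨δ, hδ⟩ : ∃ δ, 2 * a = m 1 + δ := ⟨2 * a - m 1, by omega⟩
    rw [hδ, Nat.add_sub_cancel_left] at h2
    rw [hδ]
    nlinarith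

theorem low_ev0 {F : MvPolynomial (Fin 2) k} {a : ℕ} {u : Polynomial k}
    (h : ev0 F = Polynomial.X ^ (2 * a) * u) {m : Fin 2 →₀ ℕ} (hm : coeff m F ≠ 0) (h1 : m 1 < 2 * a) :
    1 ≤ m 0 := by
  by_contra h0
  have h2 : m 0 = 0 := by omega
  apply hm
  have h3 := ev0_coeff F (m 1)
  rw [h, Polynomial.coeff_X_pow_mul', if_neg (by omega)] at h3
  rw [h3, eq_e m, h2]
  simp

theorem top_ev0 {F : MvPolynomial (Fin 2) k} {a : ℕ} {u : Polynomial k}
    (h : ev0 F = Polynomial.X ^ (2 * a) * u) : coeff (e 0 (2 * a)) F = u.coeff 0 := by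
  rw [← ev0_coeff, h, Polynomial.coeff_X_pow_mul', if_pos le_rfl, Nat.sub_self]

theorem dh_deg {F : MvPolynomial (Fin 2) k} {a W0 W1 : ℕ} (hW0 : 1 ≤ W0) (hW1 : 1 ≤ W1) {u : Polynomial k}
    (hu : u.coeff 0 ≠ 0) (h : ev0 F = Polynomial.X ^ (2 * a) * u) :
    (dh W0 W1 (2 * a * W1 : ℕ) F).natDegree = 2 * a := by
  refine le_antisymm ?_ ?_
  · rw [Polynomial.natDegree_le_iff_coeff_eq_zero]
    intro j hj
    by_contra hne
    obtain ⟨m, -, h1, h2⟩ := dh_coeff_ne hne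
    rw [h1] at h2
    nlinarith
  · apply Polynomial.le_natDegree_of_ne_zero
    have h1 := dh_coeff hW0 (f := F) (d := 2 * a * W1) (e 0 (2 * a)) (W1 := W1) (by simp [mul_comm])
    rw [e_one] at h1
    rw [h1, top_ev0 h]
    exact hu

/-- a coefficient of `(X ^ 2 + p X + r) ^ a` -/
theorem pow_coeff1 (p r : k) (a : ℕ) (ha : 1 ≤ a) :
    ((Polynomial.X ^ 2 + Polynomial.C p * Polynomial.X + Polynomial.C r) ^ a : Polynomial k).coeff (2 * a - 1) =
      a * p := by
  obtain ⟨P, hP⟩ : ∃ P : Polynomial k, P = Polynomial.X ^ 2 + Polynomial.C p * Polynomial.X + Polynomial.C r := ⟨_, rfl⟩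
  rw [← hP]
  have hd : P.natDegree = 2 := by
    rw [hP]
    compute_degree!
  have hm : P.Monic := by
    rw [Polynomial.Monic, Polynomial.leadingCoeff, hd, hP]
    simp [Polynomial.coeff_X, Polynomial.coeff_C]
  have h1 := hm.nextCoeff_pow a
  have h2 := hm.natDegree_pow a
  rw [hd] at h2
  have h3 : P.nextCoeff = p := by
    rw [Polynomial.nextCoeff_of_natDegree_pos (by omega), hd, hP]
    simp [Polynomial.coeff_X, Polynomial.coeff_C]
  rw [Polynomial.nextCoeff_of_natDegree_pos (by omega), h2, h3, nsmul_eq_mul] at h1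
  rw [mul_comm 2 a]
  exact h1

theorem pow_coeff2 (r : k) (a : ℕ) (ha : 1 ≤ a) :
    ((Polynomial.X ^ 2 + Polynomial.C r) ^ a : Polynomial k).coeff (2 * a - 2) = a * r := by
  have h1 : ((Polynomial.X ^ 2 + Polynomial.C r) ^ a : Polynomial k) =
      Polynomial.expand k 2 ((Polynomial.X + Polynomial.C r) ^ a) := by
    simp
  obtain ⟨a', rfl⟩ : ∃ a', a = a' + 1 := ⟨a - 1, by omega⟩
  rw [h1, show 2 * (a' + 1) - 2 = a' * 2 by omega, Polynomial.coeff_expand_mul (by norm_num),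
    Polynomial.coeff_X_add_C_pow, Nat.choose_succ_self_right, show a' + 1 - a' = 1 by omega, pow_one, mul_comm]

/-- the attained slope -/
theorem attained {F : MvPolynomial (Fin 2) k} {a W0 W1 i δ : ℕ} (hW0 : 1 ≤ W0)
    (hp : (i, δ) ∈ Pr F a) (hs : W1 * δ = W0 * i) :
    (dh W0 W1 (2 * a * W1 : ℕ) F).coeff (2 * a - δ) ≠ 0 ∧ 1 ≤ δ ∧ δ ≤ 2 * a := by
  obtain ⟨m, hm, h1, h2, h3⟩ := mem_Pr.1 hp
  simp only at h2 h3
  have h4 : 2 * a - δ = m 1 := by omega
  refine ⟨?_, by omega, by omega⟩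
  rw [h4]
  have h5 := dh_coeff hW0 (f := F) (d := 2 * a * W1) m (W1 := W1) (by
    rw [h2, ← hs]
    obtain ⟨x, hx⟩ : ∃ x, 2 * a = m 1 + x := ⟨2 * a - m 1, by omega⟩
    have : δ = x := by omega
    rw [this, hx]
    ring)
  rw [h5]
  exact hm

theorem lb : S_LB.{u} := by
  intro k _ _ F G a b c u v ha hb hab hc hB hu hv hF hG
  obtain ⟨N, hN⟩ : ∃ N, N = a + b := ⟨_, rfl⟩
  rw [← hN] at hB
  -- the set of slopes
  obtain ⟨S, hS⟩ : ∃ S, S = Pr F a ∪ Pr G b := ⟨_, rfl⟩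
  have hpos : ∀ p ∈ S, 1 ≤ p.1 ∧ 1 ≤ p.2 := by
    intro p hp
    rw [hS, Finset.mem_union] at hp
    rcases hp with hp | hp
    · obtain ⟨m, hm, h1, h2, h3⟩ := mem_Pr.1 hp
      have := low_ev0 hF hm h1
      omega
    · obtain ⟨m, hm, h1, h2, h3⟩ := mem_Pr.1 hp
      have := low_ev0 hG hm h1
      omega
  have hne : S.Nonempty := by
    rw [Finset.nonempty_iff_ne_empty]
    intro h0
    have h1 := key (W0 := 1) (W1 := 2) le_rfl hc hB (d := 2 * a * 2) (d' := 2 * b * 2)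
      (adm (fun p hp => absurd (Finset.mem_union_left _ hp) (by rw [← hS, h0]; simp)))
      (adm (fun p hp => absurd (Finset.mem_union_right _ hp) (by rw [← hS, h0]; simp)))
    have h2 := h1.1
    omega
  obtain ⟨⟨i, δ⟩, hmem, hmin⟩ := Finset.exists_min_image S (fun p => (p.1 : ℚ) / (p.2 : ℚ)) hne
  have hiδ := hpos _ hmem
  simp only at hiδ
  -- lowest terms
  obtain ⟨W1, W0, hW1, hW0, hcop, hs⟩ : ∃ W1 W0 : ℕ, 1 ≤ W1 ∧ 1 ≤ W0 ∧ Nat.Coprime W1 W0 ∧
      W1 * δ = W0 * i := by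
    obtain ⟨g, i', δ', hg, hcop, hi, hδ⟩ := Nat.exists_coprime' (m := i) (n := δ)
      (Nat.gcd_pos_of_pos_left _ (by omega))
    refine ⟨i', δ', ?_, ?_, hcop, ?_⟩
    · rcases Nat.eq_zero_or_pos i' with h | h
      · rw [h] at hi; omega
      · exact h
    · rcases Nat.eq_zero_or_pos δ' with h | h
      · rw [h] at hδ; omega
      · exact h
    · rw [hi, hδ]; ring
  have hadm : ∀ p ∈ S, W1 * p.2 ≤ W0 * p.1 := by
    intro p hp
    have h1 := hmin p hp
    simp only at h1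
    have hp' := hpos p hp
    have q1 : (0 : ℚ) < δ := by exact_mod_cast hiδ.2
    have q2 : (0 : ℚ) < p.2 := by exact_mod_cast hp'.2
    rw [div_le_div_iff₀ q1 q2] at h1
    have h2 : i * p.2 ≤ p.1 * δ := by exact_mod_cast h1
    have h3 : δ * (W1 * p.2) ≤ δ * (W0 * p.1) := by
      calc δ * (W1 * p.2) = (W1 * δ) * p.2 := by ring
        _ = W0 * (i * p.2) := by rw [hs]; ring
        _ ≤ W0 * (p.1 * δ) := Nat.mul_le_mul_left _ h2
        _ = δ * (W0 * p.1) := by ring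
    exact Nat.le_of_mul_le_mul_left h3 (by omega)
  have admF := adm (F := F) (a := a) fun p hp => hadm p (by rw [hS]; exact Finset.mem_union_left _ hp)
  have admG := adm (F := G) (a := b) fun p hp => hadm p (by rw [hS]; exact Finset.mem_union_right _ hp)
  have hkey := key hW0 hc hB admF admG
  have hW0δ : W0 ∣ δ := by
    have : W0 ∣ W1 * δ := ⟨i, hs⟩
    exact hcop.symm.dvd_of_dvd_mul_left this
  have hδle : δ < 2 * N - 1 := by
    rw [hS, Finset.mem_union] at hmem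
    rcases hmem with h | h
    · have := (attained hW0 h hs).2
      omega
    · have := (attained hW0 h hs).2
      omega
  have hW0le : W0 < 2 * N - 1 := lt_of_le_of_lt (Nat.le_of_dvd (by omega) hW0δ) hδle
  have h1 : (2 * N - 1) * W1 ≤ W0 * (3 * N - 2) := by
    have h2 := hkey.1
    have h3 : 2 * a * W1 + 2 * b * W1 = 2 * N * W1 := by rw [hN]; ring
    rw [h3] at h2
    have h4 : (2 * N - 1) * W1 = 2 * N * W1 - W1 := by rw [Nat.sub_mul, one_mul]
    omega
  have h2 : (2 * N - 1) * W1 ≠ W0 * (3 * N - 2) := by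
    intro heq
    have h3 : Nat.Coprime (2 * N - 1) (3 * N - 2) := by
      obtain ⟨n, rfl⟩ : ∃ n, N = n + 1 := ⟨N - 1, by omega⟩
      have e1 : 2 * (n + 1) - 1 = 2 * n + 1 := by omega
      have e2 : 3 * (n + 1) - 2 = 3 * n + 1 := by omega
      rw [e1, e2, ← Nat.isCoprime_iff_coprime]
      exact ⟨3, -2, by push_cast; ring⟩
    have h4 : (2 * N - 1) ∣ W0 := by
      have : (2 * N - 1) ∣ W0 * (3 * N - 2) := ⟨W1, heq.symm⟩
      exact h3.dvd_of_dvd_mul_right this
    have := Nat.le_of_dvd (by omega) h4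
    omega
  have h3 : (2 * N - 1) * W1 < W0 * (3 * N - 2) := lt_of_le_of_ne h1 h2
  have hslope : 2 * W1 < 3 * W0 := by
    obtain ⟨n, hn⟩ : ∃ n, N = n + 1 := ⟨N - 1, by omega⟩
    have e1 : 2 * N - 1 = 2 * n + 1 := by omega
    have e2 : 3 * N - 2 = 3 * n + 1 := by omega
    rw [e1, e2] at h3
    by_contra hcon
    have h4 : 3 * W0 ≤ 2 * W1 := not_lt.1 hcon
    have h5 : (2 * n + 1) * (3 * W0) ≤ (2 * n + 1) * (2 * W1) := Nat.mul_le_mul_left _ h4
    have e3 : (2 * n + 1) * (3 * W0) = 2 * (W0 * (3 * n + 1)) + W0 := by ring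
    have e4 : (2 * n + 1) * (2 * W1) = 2 * ((2 * n + 1) * W1) := by ring
    rw [e3, e4] at h5
    linarith only [h5, h3, hW0]
  have hODE := hkey.2 (by
    have e3 : 2 * a * W1 + 2 * b * W1 = 2 * N * W1 := by rw [hN]; ring
    have e4 : (2 * N - 1) * W1 = 2 * N * W1 - W1 := by rw [Nat.sub_mul, one_mul]
    have e5 : W1 ≤ 2 * N * W1 := Nat.le_mul_of_pos_left _ (by omega)
    rw [e3]
    omega)
  obtain ⟨α, hα⟩ : ∃ α, α = dh (W0 : ℤ) (W1 : ℤ) ((2 * a * W1 : ℕ) : ℤ) F := ⟨_, rfl⟩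
  obtain ⟨β, hβ⟩ : ∃ β, β = dh (W0 : ℤ) (W1 : ℤ) ((2 * b * W1 : ℕ) : ℤ) G := ⟨_, rfl⟩
  rw [← hα, ← hβ] at hODE
  have hαd : α.natDegree = 2 * a := by rw [hα]; exact dh_deg hW0 hW1 hu hF
  have hβd : β.natDegree = 2 * b := by rw [hβ]; exact dh_deg hW0 hW1 hv hG
  have hs0 : ((3 * W0 - 2 * W1 : ℤ) : k) ≠ 0 := by
    have : (3 * W0 - 2 * W1 : ℤ) ≠ 0 := by omega
    exact_mod_cast this
  have hode2 : Polynomial.C (b : k) * Polynomial.derivative α * β =
      Polynomial.C (a : k) * α * Polynomial.derivative β := by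
    have e1 : (((W0 : ℤ) * (3 * (b : ℤ)) - ((2 * b * W1 : ℕ) : ℤ) : ℤ) : k) =
        ((3 * W0 - 2 * W1 : ℤ) : k) * (b : k) := by push_cast; ring
    have e2 : (((W0 : ℤ) * (3 * (a : ℤ)) - ((2 * a * W1 : ℕ) : ℤ) : ℤ) : k) =
        ((3 * W0 - 2 * W1 : ℤ) : k) * (a : k) := by push_cast; ring
    rw [e1, e2, Polynomial.C_mul, Polynomial.C_mul] at hODE
    have hC0 : (Polynomial.C ((3 * W0 - 2 * W1 : ℤ) : k)) ≠ 0 := Polynomial.C_ne_zero.2 hs0
    apply mul_left_cancel₀ hC0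
    linear_combination hODE
  obtain ⟨p, r, hαP, hβP⟩ := uni (by omega) (by omega) hab hαd hβd hode2
  have hlα : α.leadingCoeff ≠ 0 := by
    rw [Polynomial.leadingCoeff_ne_zero]
    rintro rfl
    rw [Polynomial.natDegree_zero] at hαd
    omega
  have hlβ : β.leadingCoeff ≠ 0 := by
    rw [Polynomial.leadingCoeff_ne_zero]
    rintro rfl
    rw [Polynomial.natDegree_zero] at hβd
    omega
  -- the quadratic polynomial is not a square of X
  have hpr : p ≠ 0 ∨ r ≠ 0 := by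
    by_contra hcon
    push Not at hcon
    obtain ⟨rfl, rfl⟩ := hcon
    simp only [map_zero, zero_mul, add_zero, ← pow_mul] at hαP hβP
    rw [hS, Finset.mem_union] at hmem
    rcases hmem with h | h
    · have h5 := attained hW0 h hs
      rw [← hα, hαP, Polynomial.coeff_C_mul, Polynomial.coeff_X_pow, if_neg (by omega), mul_zero] at h5
      exact h5.1 rfl
    · have h5 := attained hW0 h hs
      rw [← hβ, hβP, Polynomial.coeff_C_mul, Polynomial.coeff_X_pow, if_neg (by omega), mul_zero] at h5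
      exact h5.1 rfl
  have ha0 : (a : k) ≠ 0 := by
    have : a ≠ 0 := by omega
    exact_mod_cast this
  have hcase : (W0 = 1 ∧ W1 = 1) ∨ (W0 = 2 ∧ W1 = 1 ∧ p = 0) := by
    by_cases hp : p = 0
    · have hr : r ≠ 0 := by tauto
      have h5 : α.coeff (2 * a - 2) ≠ 0 := by
        rw [hαP, hp, Polynomial.coeff_C_mul]
        simp only [map_zero, zero_mul, add_zero]
        rw [pow_coeff2 r a (by omega)]
        exact mul_ne_zero hlα (mul_ne_zero ha0 hr)
      rw [hα] at h5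
      obtain ⟨m, -, h6, h7⟩ := dh_coeff_ne h5
      rw [h6] at h7
      have h8 : W0 * m 0 = 2 * W1 := by
        obtain ⟨a', rfl⟩ : ∃ a', a = a' + 1 := ⟨a - 1, by omega⟩
        have e1 : 2 * (a' + 1) - 2 = 2 * a' := by omega
        rw [e1] at h7
        have e3 : 2 * (a' + 1) * W1 = W1 * (2 * a') + 2 * W1 := by ring
        rw [e3] at h7
        linarith only [h7]
      have h9 : W0 ∣ 2 := by
        have : W0 ∣ 2 * W1 := ⟨m 0, h8.symm⟩
        exact hcop.symm.dvd_of_dvd_mul_right this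
      have h10 := Nat.le_of_dvd (by norm_num) h9
      rcases (by omega : W0 = 1 ∨ W0 = 2) with h | h
      · left
        subst h
        exact ⟨rfl, by omega⟩
      · right
        subst h
        refine ⟨rfl, ?_, hp⟩
        rcases (by omega : W1 = 1 ∨ W1 = 2) with h | h
        · exact h
        · rw [h] at hcop
          exact absurd hcop (by decide)
    · have h5 : α.coeff (2 * a - 1) ≠ 0 := by
        rw [hαP, Polynomial.coeff_C_mul, pow_coeff1 p r a (by omega)]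
        exact mul_ne_zero hlα (mul_ne_zero ha0 hp)
      rw [hα] at h5
      obtain ⟨m, -, h6, h7⟩ := dh_coeff_ne h5
      rw [h6] at h7
      have h8 : W0 * m 0 = W1 := by
        obtain ⟨a', rfl⟩ : ∃ a', a = a' + 1 := ⟨a - 1, by omega⟩
        have e1 : 2 * (a' + 1) - 1 = 2 * a' + 1 := by omega
        rw [e1] at h7
        have e3 : 2 * (a' + 1) * W1 = W1 * (2 * a' + 1) + W1 := by ring
        rw [e3] at h7
        linarith only [h7]
      have h9 : W0 = 1 := by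
        have : W0 ∣ W1 := ⟨m 0, h8.symm⟩
        exact Nat.eq_one_of_dvd_coprimes hcop.symm dvd_rfl this
      left
      subst h9
      exact ⟨rfl, by omega⟩
  rcases hcase with ⟨rfl, rfl⟩ | ⟨rfl, rfl, rfl⟩
  · right
    refine ⟨p, r, α.leadingCoeff, β.leadingCoeff, hpr, hlα, hlβ, ?_, ?_, ?_, ?_⟩
    · intro m hm
      have := admF m hm
      omega
    · intro m hm
      have := admG m hm
      omega
    · rw [← hαP, hα]
      push_cast
      simp only [mul_one]
    · rw [← hβP, hβ]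
      push_cast
      simp only [mul_one]
  · left
    have hr : r ≠ 0 := by tauto
    simp only [map_zero, zero_mul, add_zero] at hαP hβP
    refine ⟨r, α.leadingCoeff, β.leadingCoeff, hr, hlα, hlβ, ?_, ?_, ?_, ?_⟩
    · intro m hm
      have := admF m hm
      omega
    · intro m hm
      have := admG m hm
      omega
    · rw [← hαP, hα]
      push_cast
      simp only [mul_one]
    · rw [← hβP, hβ]
      push_cast
      simp only [mul_one]

end Pool.Agent.W372.J6
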