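import Mathlib

set_option autoImplicit false

/-! Univariate polynomials with `b α' β = a α β'`. -/

open Polynomial

namespace Pool.Agent.W372.J6

universe u

variable {k : Type u} [Field k] [CharZero k]

/-- Monic polynomials of the same degree with vanishing Wronskian are equal. -/
theorem eq_of_wronskian {A B : k[X]} (hA : A.Monic) (hB : B.Monic) (hd : A.natDegree = B.natDegree)
    (hw : derivative A * B = A * derivative B) : A = B := by
  by_contra hne
  obtain ⟨D, hD⟩ : ∃ D, D = A - B := ⟨_, rfl⟩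
  have hD0 : D ≠ 0 := by rw [hD]; exact sub_ne_zero.2 hne
  have hdeg : D.natDegree < B.natDegree := by
    by_cases h0 : B.natDegree = 0
    · exfalso
      apply hne
      rw [hA.natDegree_eq_zero.1 (hd.trans h0), hB.natDegree_eq_zero.1 h0]
    · rw [hD, ← hd]
      refine natDegree_lt_natDegree (by rw [← hD]; exact hD0) ?_
      exact degree_sub_lt_left (by rw [degree_eq_natDegree hA.ne_zero, degree_eq_natDegree hB.ne_zero, hd]) hA.ne_zero
        (by rw [hA.leadingCoeff, hB.leadingCoeff])
  have h1 : derivative D * B = D * derivative B := by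
    rw [hD, derivative_sub]
    linear_combination hw
  -- compare degrees and leading coefficients
  by_cases h0 : D.natDegree = 0
  · obtain ⟨d, hd'⟩ := natDegree_eq_zero.1 h0
    rw [← hd'] at h1 hD0
    rw [derivative_C, zero_mul] at h1
    have h2 : derivative B = 0 := by
      rcases mul_eq_zero.1 h1.symm with h | h
      · exact absurd h hD0
      · exact h
    have h3 := derivative_eq_zero.1 h2
    omega
  · have hn : B.natDegree ≠ 0 := by omega
    have h2 := congrArg (fun P => coeff P (D.natDegree - 1 + B.natDegree)) h1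
    have e1 : coeff (derivative D * B) (D.natDegree - 1 + B.natDegree) =
        D.leadingCoeff * (D.natDegree : k) := by
      rw [coeff_mul_add_eq_of_natDegree_le (natDegree_derivative_le D) le_rfl, coeff_derivative,
        show D.natDegree - 1 + 1 = D.natDegree by omega, hB.coeff_natDegree, mul_one]
      congr 1
      have : ((D.natDegree - 1 + 1 : ℕ) : k) = (D.natDegree : k) := by
        rw [show D.natDegree - 1 + 1 = D.natDegree by omega]
      rw [← this]
      push_cast
      rfl
    have e2 : coeff (D * derivative B) (D.natDegree - 1 + B.natDegree) =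
        D.leadingCoeff * (B.natDegree : k) := by
      rw [show D.natDegree - 1 + B.natDegree = D.natDegree + (B.natDegree - 1) by omega,
        coeff_mul_add_eq_of_natDegree_le le_rfl (natDegree_derivative_le B), coeff_derivative,
        show B.natDegree - 1 + 1 = B.natDegree by omega, hB.coeff_natDegree, one_mul]
      congr 1
      have : ((B.natDegree - 1 + 1 : ℕ) : k) = (B.natDegree : k) := by
        rw [show B.natDegree - 1 + 1 = B.natDegree by omega]
      rw [← this]
      push_cast
      rfl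
    rw [e1, e2] at h2
    have h3 := mul_left_cancel₀ (leadingCoeff_ne_zero.2 hD0) h2
    have h4 : D.natDegree = B.natDegree := by exact_mod_cast h3
    omega

/-- coprime powers -/
theorem root_of_pow {A B : k[X]} (hA : A.Monic) (hB : B.Monic) {a b : ℕ} (ha : 1 ≤ a) (hb : 1 ≤ b)
    (hab : Nat.Coprime a b) (h : A ^ b = B ^ a) : ∃ P : k[X], P.Monic ∧ A = P ^ a ∧ B = P ^ b := by
  obtain ⟨s, t, hst⟩ := (Nat.isCoprime_iff_coprime.2 hab)
  let K := FractionRing k[X]
  have hx : algebraMap k[X] K A ≠ 0 := by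
    rw [Ne, FaithfulSMul.algebraMap_eq_zero_iff]
    exact hA.ne_zero
  have hy : algebraMap k[X] K B ≠ 0 := by
    rw [Ne, FaithfulSMul.algebraMap_eq_zero_iff]
    exact hB.ne_zero
  have hxy : (algebraMap k[X] K A) ^ b = (algebraMap k[X] K B) ^ a := by
    rw [← map_pow, ← map_pow, h]
  obtain ⟨x, hxdef⟩ : ∃ x, x = algebraMap k[X] K A := ⟨_, rfl⟩
  obtain ⟨y, hydef⟩ : ∃ y, y = algebraMap k[X] K B := ⟨_, rfl⟩
  rw [← hxdef, ← hydef] at hxy
  rw [← hxdef] at hx
  rw [← hydef] at hy
  obtain ⟨w, hw⟩ : ∃ w, w = x ^ s * y ^ t := ⟨_, rfl⟩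
  have hwa : w ^ a = x := by
    have h1 : w ^ a = x ^ (s * a) * (y ^ a) ^ t := by
      rw [hw, mul_pow, ← zpow_natCast, ← zpow_natCast (y ^ t), ← zpow_mul, ← zpow_mul, ← zpow_natCast y a,
        ← zpow_mul, mul_comm (a : ℤ) t]
    rw [h1, ← hxy, ← zpow_natCast x b, ← zpow_mul, ← zpow_add₀ hx, mul_comm (b : ℤ) t, hst, zpow_one]
  have hwb : w ^ b = y := by
    have h1 : w ^ b = (x ^ b) ^ s * y ^ (t * b) := by
      rw [hw, mul_pow, ← zpow_natCast, ← zpow_natCast (y ^ t), ← zpow_mul, ← zpow_mul, ← zpow_natCast x b,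
        ← zpow_mul, mul_comm (b : ℤ) s]
    rw [h1, hxy, ← zpow_natCast y a, ← zpow_mul, ← zpow_add₀ hy, mul_comm (a : ℤ) s, hst, zpow_one]
  obtain ⟨P, hP⟩ := IsIntegrallyClosed.exists_algebraMap_eq_of_isIntegral_pow (R := k[X]) (K := K) (x := w)
    (n := a) (by omega) (by rw [hwa, hxdef]; exact isIntegral_algebraMap)
  have hinj : Function.Injective (algebraMap k[X] K) := FaithfulSMul.algebraMap_injective _ _
  have hPa : A = P ^ a := by
    apply hinj
    rw [map_pow, hP, hwa, hxdef]
  have hPb : B = P ^ b := by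
    apply hinj
    rw [map_pow, hP, hwb, hydef]
  refine ⟨P, ?_, hPa, hPb⟩
  have l1 : P.leadingCoeff ^ a = 1 := by rw [← leadingCoeff_pow, ← hPa, hA.leadingCoeff]
  have l2 : P.leadingCoeff ^ b = 1 := by rw [← leadingCoeff_pow, ← hPb, hB.leadingCoeff]
  have l3 : orderOf P.leadingCoeff ∣ Nat.gcd a b := Nat.dvd_gcd (orderOf_dvd_of_pow_eq_one l1) (orderOf_dvd_of_pow_eq_one l2)
  rw [Nat.Coprime] at hab
  rw [hab, Nat.dvd_one, orderOf_eq_one_iff] at l3
  exact l3

theorem uni {α β : k[X]} {a b : ℕ} (ha : 1 ≤ a) (hb : 1 ≤ b) (hab : Nat.Coprime a b)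
    (hα : α.natDegree = 2 * a) (hβ : β.natDegree = 2 * b)
    (h : C (b : k) * derivative α * β = C (a : k) * α * derivative β) :
    ∃ p r : k, α = C α.leadingCoeff * (X ^ 2 + C p * X + C r) ^ a ∧
      β = C β.leadingCoeff * (X ^ 2 + C p * X + C r) ^ b := by
  have hα0 : α ≠ 0 := by
    rintro rfl
    rw [natDegree_zero] at hα
    omega
  have hβ0 : β ≠ 0 := by
    rintro rfl
    rw [natDegree_zero] at hβ
    omega
  have hlα := leadingCoeff_ne_zero.2 hα0
  have hlβ := leadingCoeff_ne_zero.2 hβ0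
  obtain ⟨A, hA⟩ : ∃ A, A = C (α.leadingCoeff⁻¹) * α := ⟨_, rfl⟩
  obtain ⟨B, hB⟩ : ∃ B, B = C (β.leadingCoeff⁻¹) * β := ⟨_, rfl⟩
  have hAm : A.Monic := by
    rw [hA, mul_comm]
    exact monic_mul_leadingCoeff_inv hα0
  have hBm : B.Monic := by
    rw [hB, mul_comm]
    exact monic_mul_leadingCoeff_inv hβ0
  have hAα : α = C α.leadingCoeff * A := by
    rw [hA, ← mul_assoc, ← C_mul, mul_inv_cancel₀ hlα, C_1, one_mul]
  have hBβ : β = C β.leadingCoeff * B := by
    rw [hB, ← mul_assoc, ← C_mul, mul_inv_cancel₀ hlβ, C_1, one_mul]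
  have hAd : A.natDegree = 2 * a := by
    rw [hA, natDegree_C_mul (inv_ne_zero hlα), hα]
  have hBd : B.natDegree = 2 * b := by
    rw [hB, natDegree_C_mul (inv_ne_zero hlβ), hβ]
  have h1 : C (b : k) * derivative A * B = C (a : k) * A * derivative B := by
    have e1 : derivative A = C (α.leadingCoeff⁻¹) * derivative α := by rw [hA, derivative_C_mul]
    have e2 : derivative B = C (β.leadingCoeff⁻¹) * derivative β := by rw [hB, derivative_C_mul]
    rw [e1, e2, hA, hB]
    linear_combination (C (α.leadingCoeff⁻¹) * C (β.leadingCoeff⁻¹)) * h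
  have h2 : A ^ b = B ^ a := by
    refine eq_of_wronskian (hAm.pow b) (hBm.pow a) ?_ ?_
    · rw [hAm.natDegree_pow, hBm.natDegree_pow, hAd, hBd]
      ring
    · rw [derivative_pow, derivative_pow]
      obtain ⟨b', rfl⟩ : ∃ b', b = b' + 1 := ⟨b - 1, by omega⟩
      obtain ⟨a', rfl⟩ : ∃ a', a = a' + 1 := ⟨a - 1, by omega⟩
      simp only [Nat.add_sub_cancel]
      rw [pow_succ A b', pow_succ B a']
      linear_combination (A ^ b' * B ^ a') * h1
  obtain ⟨P, hPm, hPA, hPB⟩ := root_of_pow hAm hBm ha hb hab h2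
  have hPd : P.natDegree = 2 := by
    have := hPm.natDegree_pow a
    rw [← hPA, hAd] at this
    have h3 : a * P.natDegree = a * 2 := by linarith
    exact Nat.eq_of_mul_eq_mul_left (by omega) h3
  have hPe : P = X ^ 2 + C (P.coeff 1) * X + C (P.coeff 0) := by
    conv_lhs => rw [P.as_sum_range, hPd]
    rw [Finset.sum_range_succ, Finset.sum_range_succ, Finset.sum_range_one]
    have : P.coeff 2 = 1 := by
      have := hPm.coeff_natDegree
      rwa [hPd] at this
    rw [this]
    simp only [← C_mul_X_pow_eq_monomial]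
    simp only [pow_zero, mul_one, pow_one, map_one, one_mul]
    ring
  refine ⟨P.coeff 1, P.coeff 0, ?_, ?_⟩
  · rw [← hPe, ← hPA]
    exact hAα
  · rw [← hPe, ← hPB]
    exact hBβ

end Pool.Agent.W372.J6
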